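import Pool.Agent.N557.BP.Shift

set_option autoImplicit false

namespace Pool.Agent.N557.BP

open Complex Set MeasureTheory Filter Topology Pool.Agent.W780.PG Pool.Agent.W780.BB
  Pool.Agent.TH103.BL

open scoped Real ComplexConjugate

theorem my_opp : S_Opp := by
  intro n p hp z θ u t O m
  obtain ⟨a, b, ha, hb, hab, hpt⟩ := O.hit m
  have hsl := sl_neg hp O m
  set ψ : ℝ := angs p θ u m with hψ
  set X : ℂ := srcs p z u m with hX
  have hdd : conj (dir ψ) * dir ψ = 1 := by
    rw [conj_dir, dir_mul, neg_add_cancel]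
    unfold dir
    simp
  have e1 : a * vd p z θ u m (u m) + b * vd p z θ u m (u m + 1) = 0 := by
    have h1 : (conj (dir ψ) * (X - (a • p (u m) + b • p (u m + 1)))).im = 0 := by
      rw [hpt]
      have : conj (dir ψ) * (X - (X + t m • dir ψ)) = ((-(t m) : ℝ) : ℂ) := by
        rw [real_smul]
        calc conj (dir ψ) * (X - (X + (t m : ℂ) * dir ψ)) = -(t m : ℂ) * (conj (dir ψ) * dir ψ) := by
              ring
          _ = _ := by rw [hdd]; push_cast; ring
      rw [this, ofReal_im]
    have h2 : conj (dir ψ) * (X - (a • p (u m) + b • p (u m + 1))) =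
        (a : ℂ) * (conj (dir ψ) * (X - p (u m))) + (b : ℂ) * (conj (dir ψ) * (X - p (u m + 1))) := by
      have hab' : (a : ℂ) + (b : ℂ) = 1 := by exact_mod_cast hab
      rw [real_smul, real_smul]
      calc _ = conj (dir ψ) * (((a : ℂ) + b) * X - (a * p (u m) + b * p (u m + 1))) := by
            rw [hab', one_mul]
        _ = _ := by ring
    rw [h2, add_im, im_ofReal_mul, im_ofReal_mul] at h1
    exact h1
  have e2 : vd p z θ u m (u m) - vd p z θ u m (u m + 1) = - sl p (u m) ψ := by
    have h1 : vd p z θ u m (u m) - vd p z θ u m (u m + 1) =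
        (conj (dir ψ) * (p (u m + 1) - p (u m))).im := by
      show (conj (dir ψ) * (X - p (u m))).im - (conj (dir ψ) * (X - p (u m + 1))).im = _
      rw [← sub_im]
      congr 1
      ring
    rw [h1]
    show _ = - (conj (p (u m + 1) - p (u m)) * dir ψ).im
    have h2 : conj (dir ψ) * (p (u m + 1) - p (u m)) =
        conj (conj (p (u m + 1) - p (u m)) * dir ψ) := by
      rw [map_mul, conj_conj]
      ring
    rw [h2, conj_im]
  have hpos : 0 < vd p z θ u m (u m) - vd p z θ u m (u m + 1) := by rw [e2]; linarith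
  set A := vd p z θ u m (u m)
  set B := vd p z θ u m (u m + 1)
  have hA : 0 < A := by nlinarith
  have hB : B < 0 := by nlinarith
  exact mul_neg_of_pos_of_neg hA hB

end Pool.Agent.N557.BP
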