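import Pool.Agent.N557.BP.Stm

set_option autoImplicit false

/-!
Project BP, second part: slices which are continuous on the open polygon only.
-/

namespace Pool.Agent.N557.BP

open Complex Set MeasureTheory Filter Topology Pool.Agent.W780.PG Pool.Agent.W780.BB
  Pool.Agent.TH103.BL

open scoped Real ComplexConjugate

/-- For almost every direction `θ` the slice `f (·, θ)` agrees almost everywhere with a function which
is continuous on the open polygon. -/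
def OpenSlices {n : ℕ} (p : Fin (n + 3) → ℂ) (f : ℂ × ℝ → ℝ) : Prop :=
  ∀ᵐ θ : ℝ, ∃ G : ℂ → ℝ, ContinuousOn G (region p) ∧ ∀ᵐ z : ℂ, z ∈ region p → f (z, θ) = G z

/-- the slice in the direction `θ` has a limit at the vertex `p i` -/
def VL {n : ℕ} (p : Fin (n + 3) → ℂ) (f : ℂ × ℝ → ℝ) (i : Fin (n + 3)) (θ : ℝ) : Prop :=
  ∃ l : ℝ, ∀ η : ℝ, 0 < η → ∃ r : ℝ, 0 < r ∧
    ∀ᵐ z : ℂ, z ∈ region p → ‖z - p i‖ < r → |f (z, θ) - l| ≤ η

/-- BP/R1 -/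
def S_R1 : Prop := ∀ (n : ℕ) (p : Fin (n + 3) → ℂ), IsConvexPolygon p →
  ∀ f : ℂ × ℝ → ℝ, Measurable f → IsInvariantFun p f → OpenSlices p f →
    ∀ i : Fin (n + 3), ∀ᵐ θ : ℝ, 0 < sl p i θ * sl p (i - 1) θ → VL p f i θ

/-- BP/R2 -/
def S_R2 : Prop := ∀ (n : ℕ) (p : Fin (n + 3) → ℂ), IsConvexPolygon p →
  ∀ f : ℂ × ℝ → ℝ, Measurable f → IsInvariantFun p f →
    ∀ i a : Fin (n + 3), (i = a ∨ i = a + 1) → ∀ θ : ℝ, sl p i θ * sl p (i - 1) θ < 0 →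
      VL p f i (2 * tau p a - θ) → VL p f i θ

/-- BP/R3 -/
def S_R3 : Prop := ∀ (n : ℕ) (p : Fin (n + 3) → ℂ), IsConvexPolygon p →
  (∀ i, Irrational (ang p i / π)) →
  ∀ f : ℂ × ℝ → ℝ, Measurable f → IsInvariantFun p f → OpenSlices p f →
    ∀ i : Fin (n + 3), ∀ᵐ θ : ℝ, VL p f i θ

/-- BP/R4 -/
def S_R4 : Prop := ∀ (n : ℕ) (p : Fin (n + 3) → ℂ), IsConvexPolygon p →
  ∀ f : ℂ × ℝ → ℝ, Measurable f → IsInvariantFun p f → OpenSlices p f →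
    (∀ i : Fin (n + 3), ∀ᵐ θ : ℝ, VL p f i θ) → ContinuousSlices p f

end Pool.Agent.N557.BP
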