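import Pool.Agent.N557.BP.Val
import Pool.Agent.N557.BP.Stm2
import Pool.Agent.N262.BP.EXIT
import Pool.Agent.N130.BP.ALLP
import Pool.Agent.N329.BP.FIRST
import Pool.Agent.N31.BP.V1
import Pool.Agent.N574.BP.V2
import Pool.Agent.N738.BP.V3
import Pool.Agent.N681.BP.GOOD
import Pool.Agent.N910.BP.R3
import Pool.Agent.N557.BP.Opp
import Pool.Agent.N545.BP.STAY
import Pool.Agent.N415.BP.MEET
import Pool.Agent.N700.BP.R1
import Pool.Agent.N793.BP.R2
import Pool.Agent.N950.BP.R4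

set_option autoImplicit false

/-!
Project BP: the end.
-/

namespace Pool.Agent.N557.BP

open Complex Set MeasureTheory Filter Topology Pool.Agent.W780.PG Pool.Agent.W780.BB
  Pool.Agent.TH103.BL

open scoped Real ComplexConjugate

theorem pre_closed (hOpp : S_Opp) (hStay : S_Opp → S_Exit → S_Shift → S_Stay)
    (hMeet : S_Opp → S_Exit → S_Shift → S_Stay → S_Meet) : S_Main :=
  t_main (Pool.Agent.N738.BP.t_v3 Pool.Agent.N31.BP.t_v1 Pool.Agent.N574.BP.t_v2)
    (t_val Pool.Agent.N681.BP.t_good Pool.Agent.N130.BP.t_allp Pool.Agent.N329.BP.t_first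
      (hMeet hOpp Pool.Agent.N262.BP.t_exit t_shift (hStay hOpp Pool.Agent.N262.BP.t_exit t_shift))
      t_okae)

theorem pre_open (hM : S_Main) (h1 : S_R1) (h2 : S_R2) (h4 : S_R4) (n : ℕ) :
    ∀ p : Fin (n + 3) → ℂ, IsConvexPolygon p → (∀ i, Irrational (ang p i / π)) →
      ∀ f : ℂ × ℝ → ℝ, Measurable f → IsInvariantFun p f → OpenSlices p f →
        ∃ c : ℝ, ∀ᵐ x : ℂ × ℝ, x.1 ∈ region p → f x = c := by
  intro p hp hirr f hf hI hO
  exact hM n p hp hirr f hf hI
    (h4 n p hp f hf hI hO (Pool.Agent.N910.BP.t_r3 h1 h2 n p hp hirr f hf hI hO))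

theorem final_closed : S_Main := pre_closed my_opp Pool.Agent.N545.BP.t_stay Pool.Agent.N415.BP.t_meet

/-- Invariant functions whose slices are continuous on the open polygon are constant. -/
theorem final_open (n : ℕ) :
    ∀ p : Fin (n + 3) → ℂ, IsConvexPolygon p → (∀ i, Irrational (ang p i / π)) →
      ∀ f : ℂ × ℝ → ℝ, Measurable f → IsInvariantFun p f → OpenSlices p f →
        ∃ c : ℝ, ∀ᵐ x : ℂ × ℝ, x.1 ∈ region p → f x = c :=
  pre_open final_closed Pool.Agent.N700.BP.t_r1 Pool.Agent.N793.BP.t_r2 Pool.Agent.N950.BP.t_r4 n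

end Pool.Agent.N557.BP
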