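import Pool.Agent.N557.BP.Stm

set_option autoImplicit false

namespace Pool.Agent.N557.BP

open Complex Set MeasureTheory Filter Topology Pool.Agent.W780.PG Pool.Agent.W780.BB
  Pool.Agent.TH103.BL

open scoped Real ComplexConjugate

theorem conj_dir (a : ℝ) : conj (dir a) = dir (-a) := by
  unfold dir
  rw [← exp_conj, map_mul, conj_I, conj_ofReal]
  congr 1
  push_cast
  ring

theorem dir_mul (a b : ℝ) : dir a * dir b = dir (a + b) := by
  unfold dir
  rw [← exp_add]
  congr 1
  push_cast
  ring

theorem t_shift : S_Shift := by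
  intro n p z z' θ u m j
  have key : ∀ m : ℕ, (conj (dir (angs p θ u m)) * (srcs p z' u m - srcs p z u m)).im =
      (-1) ^ m * tv θ (z' - z) := by
    intro m
    induction m with
    | zero =>
      show (conj (dir θ) * (z' - z)).im = _
      rw [pow_zero, one_mul]
      rfl
    | succ m ih =>
      show (conj (dir (2 * tau p (u m) - angs p θ u m)) *
        (rf p (u m) (srcs p z' u m) - rf p (u m) (srcs p z u m))).im = _
      set d : ℂ := srcs p z' u m - srcs p z u m with hd
      have e1 : rf p (u m) (srcs p z' u m) - rf p (u m) (srcs p z u m) =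
          dir (2 * tau p (u m)) * conj d := by
        unfold rf
        rw [hd, map_sub, map_sub, map_sub]
        ring
      have e2 : conj (dir (2 * tau p (u m) - angs p θ u m)) * (dir (2 * tau p (u m)) * conj d) =
          conj (conj (dir (angs p θ u m)) * d) := by
        rw [← mul_assoc, conj_dir, dir_mul, map_mul, conj_conj]
        congr 2
        ring
      rw [e1, e2, conj_im, ih, pow_succ]
      ring
  have h := key m
  unfold vd sd
  simp only
  have e : conj (dir (angs p θ u m)) * (srcs p z' u m - p j) =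
      conj (dir (angs p θ u m)) * (srcs p z u m - p j) +
      conj (dir (angs p θ u m)) * (srcs p z' u m - srcs p z u m) := by ring
  rw [e, add_im, h]

theorem t_okae : S_Okae := by
  intro n p hp
  have h1 : ∀ T : ℕ, ∀ᵐ x : ℂ × ℝ, ∀ w j, uf p w (p j) ∉
      segment ℝ x.1 (x.1 + (T : ℝ) • dir x.2) := by
    intro T
    filter_upwards [Pool.Agent.W337.BB.gen_th n p hp T] with x hx using hx.1
  have h2 := ae_swap (ae_all_iff.2 h1)
  filter_upwards [h2] with θ hθ
  filter_upwards [hθ] with z hx hxr
  refine ⟨?_, ?_⟩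
  · have hc : Continuous fun s : ℝ => z + s • dir θ := by fun_prop
    have h3 : ∀ᶠ s in 𝓝 (0 : ℝ), z + s • dir θ ∈ reg p :=
      hc.continuousAt ((reg_open hp).mem_nhds (by rw [zero_smul, add_zero]; exact hxr))
    obtain ⟨δ, hδ, hball⟩ := Metric.eventually_nhds_iff.1 h3
    refine ⟨δ, hδ, fun s h4 h5 => hball ?_⟩
    rw [Real.dist_eq, sub_zero, abs_of_pos h4]
    exact h5
  · intro w j s hs heq
    obtain ⟨T, hT⟩ := exists_nat_ge s
    apply hx T w j
    rw [← heq, segment_eq_image']
    have hT0 : (0 : ℝ) < T := hs.trans_le hT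
    refine ⟨s / T, ⟨by positivity, (div_le_one hT0).2 hT⟩, ?_⟩
    simp only
    rw [add_sub_cancel_left, smul_smul, div_mul_cancel₀ _ hT0.ne']

end Pool.Agent.N557.BP
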