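import Pool.Agent.TH103.BL.Ch
import Pool.Agent.TH103.BL.Fun

set_option autoImplicit false

/-!
Billiards in convex polygons: invariant functions with continuous slices (project BP, helper557).

Statements of the leaves.
-/

namespace Pool.Agent.N557.BP

open Complex Set MeasureTheory Filter Topology Pool.Agent.W780.PG Pool.Agent.W780.BB
  Pool.Agent.TH103.BL

open scoped Real ComplexConjugate

/-- For almost every direction `θ` the slice `f (·, θ)` agrees almost everywhere on the polygon with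
a continuous function on the plane. There is no uniformity in the direction. -/
def ContinuousSlices {n : ℕ} (p : Fin (n + 3) → ℂ) (f : ℂ × ℝ → ℝ) : Prop :=
  ∀ᵐ θ : ℝ, ∃ G : ℂ → ℝ, Continuous G ∧ ∀ᵐ z : ℂ, z ∈ region p → f (z, θ) = G z

variable {n : ℕ}

/-- `G` is a continuous version of the slice in the direction `θ` -/
def Sl (p : Fin (n + 3) → ℂ) (f : ℂ × ℝ → ℝ) (θ : ℝ) (G : ℂ → ℝ) : Prop :=
  Continuous G ∧ ∀ᵐ z : ℂ, z ∈ region p → f (z, θ) = G z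

/-- the signed distance of the vertex `p j` from the line of frame `m` (itinerary `u`) -/
noncomputable def vd (p : Fin (n + 3) → ℂ) (z : ℂ) (θ : ℝ) (u : ℕ → Fin (n + 3)) (m : ℕ)
    (j : Fin (n + 3)) : ℝ := sd p j (srcs p z u m, angs p θ u m)

/-- transversal displacement -/
noncomputable def tv (θ : ℝ) (w : ℂ) : ℝ := (conj (dir θ) * w).im

/-! ### Geometry of orbits -/

/-- BP/OPP: the end points of the side that is hit lie on different sides of the line. -/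
def S_Opp : Prop := ∀ (n : ℕ) (p : Fin (n + 3) → ℂ), IsConvexPolygon p →
  ∀ (z : ℂ) (θ : ℝ) (u : ℕ → Fin (n + 3)) (t : ℕ → ℝ), Orb p z θ u t → ∀ m : ℕ,
    vd p z θ u m (u m) * vd p z θ u m (u m + 1) < 0

/-- BP/EXIT: a line which leaves through side `a` hits side `a`. -/
def S_Exit : Prop := ∀ (n : ℕ) (p : Fin (n + 3) → ℂ), IsConvexPolygon p →
  ∀ (z : ℂ) (θ : ℝ) (u : ℕ → Fin (n + 3)) (t : ℕ → ℝ), Orb p z θ u t → ∀ (m : ℕ) (a : Fin (n + 3)),
    sl p a (angs p θ u m) < 0 → vd p z θ u m a * vd p z θ u m (a + 1) < 0 → u m = a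

/-- BP/SHIFT: the distances under parallel displacement. -/
def S_Shift : Prop := ∀ (n : ℕ) (p : Fin (n + 3) → ℂ) (z z' : ℂ) (θ : ℝ) (u : ℕ → Fin (n + 3))
    (m : ℕ) (j : Fin (n + 3)),
    vd p z' θ u m j = vd p z θ u m j + (-1) ^ m * tv θ (z' - z)

/-- the end points of the sides `u m`, `m < K`, have distance at least `δ` from the line -/
def Wide (p : Fin (n + 3) → ℂ) (z : ℂ) (θ : ℝ) (u : ℕ → Fin (n + 3)) (δ : ℝ) (K : ℕ) : Prop :=
  ∀ m < K, δ ≤ |vd p z θ u m (u m)| ∧ δ ≤ |vd p z θ u m (u m + 1)|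

/-- BP/STAY: parallel lines at distance less than `δ` have the same itinerary as long as it is wide. -/
def S_Stay : Prop := ∀ (n : ℕ) (p : Fin (n + 3) → ℂ), IsConvexPolygon p →
  ∀ (z z' : ℂ) (θ : ℝ) (u u' : ℕ → Fin (n + 3)) (t t' : ℕ → ℝ), Orb p z θ u t → Orb p z' θ u' t' →
    ∀ (δ : ℝ) (K : ℕ), Wide p z θ u δ K → |tv θ (z' - z)| < δ → ∀ m < K, u' m = u m

/-- BP/MEET: if the itinerary is wide up to `K` and an end point `p j` of the side `u K` has distance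
less than `δ` from the line, there is a ball of starting points, close to `z`, all of whose orbits
(in the direction `θ`) pass close to `p j` in frame `K`. -/
def S_Meet : Prop := ∀ (n : ℕ) (p : Fin (n + 3) → ℂ), IsConvexPolygon p →
  ∀ (z : ℂ) (θ : ℝ) (u : ℕ → Fin (n + 3)) (t : ℕ → ℝ), Orb p z θ u t →
    ∀ (δ : ℝ) (K : ℕ), Wide p z θ u δ K → ∀ j : Fin (n + 3), (j = u K ∨ j = u K + 1) →
      |vd p z θ u K j| < δ → ∀ ρ : ℝ, 0 < ρ →
      ∃ (z1 : ℂ) (r : ℝ), 0 < r ∧ (∀ z' : ℂ, ‖z' - z1‖ < r → ‖z' - z‖ < δ ∧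
        ∀ (u' : ℕ → Fin (n + 3)) (t' : ℕ → ℝ), Orb p z' θ u' t' →
          (∀ m < K, u' m = u m) ∧ ∃ s1 s2 : ℝ, s1 < s2 ∧ ∀ s : ℝ, s1 < s → s < s2 →
            tp t' K < s ∧ s < t' K ∧ ‖ps p z' θ u' K s - p j‖ < ρ)

/-- BP/ALLP: for almost every direction, every orbit has reflection points close to vertices. -/
def S_Allp : Prop := ∀ (n : ℕ) (p : Fin (n + 3) → ℂ), IsConvexPolygon p →
  ∀ᵐ θ : ℝ, ∀ z ∈ reg p, ∀ (u : ℕ → Fin (n + 3)) (t : ℕ → ℝ), Orb p z θ u t →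
    ∀ ε : ℝ, 0 < ε → ∃ (K : ℕ) (j : Fin (n + 3)), ‖pt p z θ u t K - p j‖ < ε

/-- BP/FIRST: the first frame in which an end point is close to the line. -/
def S_First : Prop := ∀ (n : ℕ) (p : Fin (n + 3) → ℂ), IsConvexPolygon p →
  ∀ (z : ℂ) (θ : ℝ) (u : ℕ → Fin (n + 3)) (t : ℕ → ℝ), Orb p z θ u t →
    (∀ ε : ℝ, 0 < ε → ∃ (K : ℕ) (j : Fin (n + 3)), ‖pt p z θ u t K - p j‖ < ε) →
    ∀ δ : ℝ, 0 < δ → ∃ K : ℕ, Wide p z θ u δ K ∧
      ∃ j : Fin (n + 3), (j = u K ∨ j = u K + 1) ∧ |vd p z θ u K j| < δ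

/-- BP/OKAE: for almost every direction, almost every starting point has an orbit. -/
def S_Okae : Prop := ∀ (n : ℕ) (p : Fin (n + 3) → ℂ), IsConvexPolygon p →
  ∀ᵐ θ : ℝ, ∀ᵐ z : ℂ, z ∈ reg p → Ok p z θ 0

/-! ### The vertices -/

/-- BP/V1: the values of the slices at a vertex form a measurable function. -/
def S_V1 : Prop := ∀ (n : ℕ) (p : Fin (n + 3) → ℂ), IsConvexPolygon p →
  ∀ f : ℂ × ℝ → ℝ, Measurable f → IsInvariantFun p f → ContinuousSlices p f →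
    ∀ i : Fin (n + 3), ∃ g : ℝ → ℝ, Measurable g ∧ (∀ θ, g (θ + 2 * π) = g θ) ∧
      ∀ᵐ θ : ℝ, ∀ G : ℂ → ℝ, Sl p f θ G → G (p i) = g θ

/-- BP/V2: the reflection law at a vertex. -/
def S_V2 : Prop := ∀ (n : ℕ) (p : Fin (n + 3) → ℂ), IsConvexPolygon p →
  ∀ f : ℂ × ℝ → ℝ, Measurable f → IsInvariantFun p f → ContinuousSlices p f →
    ∀ i a : Fin (n + 3), (i = a ∨ i = a + 1) → ∀ g : ℝ → ℝ,
      (∀ᵐ θ : ℝ, ∀ G : ℂ → ℝ, Sl p f θ G → G (p i) = g θ) →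
      ∀ᵐ θ : ℝ, g (2 * tau p a - θ) = g θ

/-- BP/V3: at a vertex with an irrational angle the values are constant. -/
def S_V3 : Prop := ∀ (n : ℕ) (p : Fin (n + 3) → ℂ), IsConvexPolygon p →
  (∀ i, Irrational (ang p i / π)) →
  ∀ f : ℂ × ℝ → ℝ, Measurable f → IsInvariantFun p f → ContinuousSlices p f →
    ∃ c : Fin (n + 3) → ℝ, ∀ᵐ θ : ℝ, ∀ G : ℂ → ℝ, Sl p f θ G → ∀ i, G (p i) = c i

/-- BP/GOOD: for almost every direction, all folded slices are continuous with the values `c i` at the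
vertices, and almost every starting point is generic for them. -/
def S_Good : Prop := ∀ (n : ℕ) (p : Fin (n + 3) → ℂ), IsConvexPolygon p →
  ∀ f : ℂ × ℝ → ℝ, Measurable f → IsInvariantFun p f → ContinuousSlices p f →
    ∀ c : Fin (n + 3) → ℝ, (∀ᵐ θ : ℝ, ∀ G : ℂ → ℝ, Sl p f θ G → ∀ i, G (p i) = c i) →
      ∀ᵐ θ : ℝ, ∀ w : List (Fin (n + 3)), ∃ G : ℂ → ℝ, Continuous G ∧ (∀ i, G (p i) = c i) ∧
        ∀ᵐ z : ℂ, ∀ q : ℚ, (fd p w (z + (q : ℝ) • dir θ, θ)).1 ∈ region p →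
          f (fd p w (z + (q : ℝ) • dir θ, θ)) = G (fd p w (z + (q : ℝ) • dir θ, θ)).1

/-- BP/VAL: for almost every direction the slice takes only the values `c j`. -/
def S_Val : Prop := ∀ (n : ℕ) (p : Fin (n + 3) → ℂ), IsConvexPolygon p →
  ∀ f : ℂ × ℝ → ℝ, Measurable f → IsInvariantFun p f → ContinuousSlices p f →
    ∀ c : Fin (n + 3) → ℝ, (∀ᵐ θ : ℝ, ∀ G : ℂ → ℝ, Sl p f θ G → ∀ i, G (p i) = c i) →
      ∀ᵐ θ : ℝ, ∀ G : ℂ → ℝ, Sl p f θ G → ∀ z ∈ reg p, ∃ j, G z = c j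

/-- the final statement -/
def S_Main : Prop := ∀ (n : ℕ) (p : Fin (n + 3) → ℂ), IsConvexPolygon p →
  (∀ i, Irrational (ang p i / π)) →
  ∀ f : ℂ × ℝ → ℝ, Measurable f → IsInvariantFun p f → ContinuousSlices p f →
    ∃ c : ℝ, ∀ᵐ x : ℂ × ℝ, x.1 ∈ region p → f x = c

end Pool.Agent.N557.BP
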