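import Pool.Agent.N557.BP.Shift

set_option autoImplicit false

namespace Pool.Agent.N557.BP

open Complex Set MeasureTheory Filter Topology Pool.Agent.W780.PG Pool.Agent.W780.BB
  Pool.Agent.TH103.BL

open scoped Real ComplexConjugate

/-- two continuous versions agree on the region -/
theorem sl_unique {n : ℕ} {p : Fin (n + 3) → ℂ} (hp : IsConvexPolygon p) {G G' : ℂ → ℝ}
    (hG : Continuous G) (hG' : Continuous G') (h : ∀ᵐ z : ℂ, z ∈ reg p → G z = G' z) :
    ∀ z ∈ reg p, G z = G' z := by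
  intro z hz
  by_contra hne
  have hopen : IsOpen (reg p ∩ {y | G y ≠ G' y}) :=
    (reg_open hp).inter (isOpen_ne_fun hG hG')
  have hpos := hopen.measure_pos volume ⟨z, hz, hne⟩
  have h0 : volume (reg p ∩ {y | G y ≠ G' y}) = 0 := by
    refine measure_eq_zero_iff_ae_notMem.2 ?_
    filter_upwards [h] with y hy
    rintro ⟨h1, h2⟩
    exact h2 (hy h1)
  exact hpos.ne' h0

theorem t_val (hGood : S_Good) (hAllp : S_Allp) (hFirst : S_First) (hMeet : S_Meet)
    (hOkae : S_Okae) : S_Val := by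
  intro n p hp f hf hI hC c hc
  have hrr := region_eq hp
  filter_upwards [hGood n p hp f hf hI hC c hc, hAllp n p hp, hOkae n p hp] with θ h1 h2 h3 G hG z hz
  by_contra hcon
  push Not at hcon
  -- the version for the empty word
  obtain ⟨hGc, hGae⟩ := hG
  -- a positive distance
  obtain ⟨η, hη, hη2⟩ : ∃ η : ℝ, 0 < η ∧ ∀ j, 3 * η ≤ |G z - c j| := by
    obtain ⟨i0, -, hmin⟩ := Finset.exists_min_image Finset.univ (fun j => |G z - c j|)
      ⟨0, Finset.mem_univ _⟩
    refine ⟨|G z - c i0| / 3, ?_, fun j => ?_⟩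
    · have : 0 < |G z - c i0| := abs_pos.2 (sub_ne_zero.2 (hcon i0))
      linarith
    · have := hmin j (Finset.mem_univ _)
      linarith
  -- closeness
  obtain ⟨δ, hδ, hδ2⟩ : ∃ δ : ℝ, 0 < δ ∧ ∀ y : ℂ, ‖y - z‖ < 2 * δ → |G y - G z| < η ∧ y ∈ reg p := by
    have e1 : ∀ᶠ y in 𝓝 z, |G y - G z| < η := by
      have : Tendsto (fun y => |G y - G z|) (𝓝 z) (𝓝 |G z - G z|) :=
        (hGc.sub continuous_const).abs.tendsto z
      rw [sub_self, abs_zero] at this
      exact this.eventually_lt_const hη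
    have e2 : ∀ᶠ y in 𝓝 z, y ∈ reg p := (reg_open hp).mem_nhds hz
    obtain ⟨δ, hδ, hb⟩ := Metric.eventually_nhds_iff.1 (e1.and e2)
    refine ⟨δ / 2, by linarith, fun y hy => hb ?_⟩
    rw [dist_eq_norm]
    linarith
  -- a generic starting point
  obtain ⟨z0, hz0, hz0b⟩ := (Measure.dense_of_ae h3).inter_nhds_nonempty
    (Metric.ball_mem_nhds z hδ)
  rw [Metric.mem_ball, dist_eq_norm] at hz0b
  have hz0r : z0 ∈ reg p := (hδ2 z0 (by linarith)).2
  obtain ⟨u, t, O⟩ := exists_orb hp (hz0 hz0r)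
  obtain ⟨K, hW, j, hj, hjd⟩ := hFirst n p hp z0 θ u t O (h2 z0 hz0r u t O) δ hδ
  obtain ⟨Gw, hGw, hGwc, hGwae⟩ := h1 ((List.range K).map u)
  obtain ⟨ρ, hρ, hρ2⟩ : ∃ ρ : ℝ, 0 < ρ ∧ ∀ y : ℂ, ‖y - p j‖ < ρ → |Gw y - c j| < η := by
    have e1 : ∀ᶠ y in 𝓝 (p j), |Gw y - c j| < η := by
      have : Tendsto (fun y => |Gw y - c j|) (𝓝 (p j)) (𝓝 |Gw (p j) - c j|) :=
        (hGw.sub continuous_const).abs.tendsto (p j)
      rw [hGwc j, sub_self, abs_zero] at this
      exact this.eventually_lt_const hη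
    obtain ⟨ρ, hρ, hb⟩ := Metric.eventually_nhds_iff.1 e1
    exact ⟨ρ, hρ, fun y hy => hb (by rw [dist_eq_norm]; exact hy)⟩
  obtain ⟨z1, r, hr, hball⟩ := hMeet n p hp z0 θ u t O δ K hW j hj hjd ρ hρ
  obtain ⟨z', ⟨⟨h4, h5⟩, h6⟩, hz'b⟩ := (Measure.dense_of_ae ((h3.and hGwae).and hGae)).inter_nhds_nonempty
    (Metric.ball_mem_nhds z1 hr)
  rw [Metric.mem_ball, dist_eq_norm] at hz'b
  obtain ⟨h7, h8⟩ := hball z' hz'b
  have hz'z : ‖z' - z‖ < 2 * δ := by
    calc ‖z' - z‖ = ‖(z' - z0) + (z0 - z)‖ := by congr 1; ring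
      _ ≤ ‖z' - z0‖ + ‖z0 - z‖ := norm_add_le _ _
      _ < 2 * δ := by linarith
  obtain ⟨h9, hz'r⟩ := hδ2 z' hz'z
  obtain ⟨u', t', O'⟩ := exists_orb hp (h4 hz'r)
  obtain ⟨hu, s1, s2, hs, hall⟩ := h8 u' t' O'
  obtain ⟨q, hq1, hq2⟩ := exists_rat_btwn hs
  obtain ⟨a1, a2, a3⟩ := hall q hq1 hq2
  have hw : (List.range K).map u' = (List.range K).map u := by
    refine List.map_congr_left fun m hm => ?_
    exact hu m (List.mem_range.1 hm)
  have e1 := h5 q
  rw [← hw, fd_word hp] at e1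
  have e2 := along' hp hI hz'r O' K a1 a2
  have e3 := e1 (by rw [hrr]; exact ps_in O' K a1 a2)
  have e4 : f (z', θ) = Gw (ps p z' θ u' K q) := by
    rw [e2]
    exact e3
  have e5 := h6 (by rw [hrr]; exact hz'r)
  have e6 := hρ2 _ a3
  rw [← e4, e5] at e6
  have e7 := hη2 j
  have e8 : G z - c j = (G z' - c j) - (G z' - G z) := by ring
  have e9 : |G z - c j| ≤ |G z' - c j| + |G z' - G z| := by
    rw [e8]; exact abs_sub _ _
  linarith

theorem t_main (h3 : S_V3) (hVal : S_Val) : S_Main := by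
  intro n p hp hirr f hf hI hC
  have hrr := region_eq hp
  obtain ⟨c, hc⟩ := h3 n p hp hirr f hf hI hC
  have hv := hVal n p hp f hf hI hC c hc
  refine ⟨c 0, ?_⟩
  have key : ∀ᵐ θ : ℝ, ∀ᵐ z : ℂ, z ∈ region p → f (z, θ) = c 0 := by
    filter_upwards [hC, hc, hv] with θ ⟨G, hG⟩ h1 h2
    have h4 := h1 G hG
    have h5 := h2 G hG
    -- G is constant on the region
    have hconn : IsPreconnected (reg p) := (hB n p hp).2.2.1.isPreconnected
    have himg : IsPreconnected (G '' reg p) := hconn.image G hG.1.continuousOn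
    have hfin : (G '' reg p).Finite := by
      refine (finite_range c).subset ?_
      rintro _ ⟨z, hz, rfl⟩
      obtain ⟨j, hj⟩ := h5 z hz
      exact ⟨j, hj.symm⟩
    have hsub : (G '' reg p).Subsingleton := by
      by_contra hns
      rw [Set.not_subsingleton_iff] at hns
      exact (himg.infinite_of_nontrivial hns) hfin
    obtain ⟨z0, hz0⟩ : (reg p).Nonempty := (hB n p hp).2.2.2.2.2.1
    have hconst : ∀ z ∈ reg p, G z = G z0 := fun z hz => hsub ⟨z, hz, rfl⟩ ⟨z0, hz0, rfl⟩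
    have hcl : p 0 ∈ closure (reg p) := by
      rw [(hB n p hp).2.2.2.2.2.2.1]
      exact vert_mem hp 0
    have hval : G (p 0) = G z0 := by
      have hclosed : IsClosed {y | G y = G z0} := isClosed_eq hG.1 continuous_const
      exact closure_minimal (fun z hz => hconst z hz) hclosed hcl
    filter_upwards [hG.2] with z hz hzr
    rw [hz hzr, hconst z (by rw [← hrr]; exact hzr), ← hval, h4 0]
  have hm : MeasurableSet {x : ℂ × ℝ | x.1 ∈ region p ∧ f x ≠ c 0} := by
    refine MeasurableSet.inter ?_ ?_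
    · rw [hrr]
      exact measurable_fst (reg_open hp).measurableSet
    · exact (hf (measurableSet_singleton (c 0))).compl
  have h0 : volume {x : ℂ × ℝ | x.1 ∈ region p ∧ f x ≠ c 0} = 0 := by
    rw [Measure.volume_eq_prod, Measure.prod_apply_symm hm]
    have h1 : (fun θ : ℝ => volume ((fun z : ℂ => (z, θ)) ⁻¹'
        {x : ℂ × ℝ | x.1 ∈ region p ∧ f x ≠ c 0})) =ᵐ[volume] fun _ => 0 := by
      filter_upwards [key] with θ hθ
      refine measure_eq_zero_iff_ae_notMem.2 ?_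
      filter_upwards [hθ] with z hz
      rintro ⟨h1, h2⟩
      exact h2 (hz h1)
    rw [lintegral_congr_ae h1, lintegral_zero]
  filter_upwards [measure_eq_zero_iff_ae_notMem.1 h0] with x hx hxr
  by_contra hcon
  exact hx ⟨hxr, hcon⟩

end Pool.Agent.N557.BP
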